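import Pool.Agent.TH852.SP.Stmts
import Pool.Agent.Helper413.Quad.Hom

/-!
A generic plane curve with a double point is irreducible.
-/

set_option autoImplicit false

namespace Pool.Agent.TH251.VS

open MvPolynomial Pool.Agent.TH852.SP

/-- the exponent -/
noncomputable def mon (n : ℕ) (p : ℕ × ℕ) : Fin 3 →₀ ℕ :=
  Finsupp.single 0 (n - p.1 - p.2) + Finsupp.single 1 p.1 + Finsupp.single 2 p.2

lemma mon_0 (n : ℕ) (p : ℕ × ℕ) : mon n p 0 = n - p.1 - p.2 := by
  simp [mon]

lemma mon_1 (n : ℕ) (p : ℕ × ℕ) : mon n p 1 = p.1 := by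
  simp [mon]

lemma mon_2 (n : ℕ) (p : ℕ × ℕ) : mon n p 2 = p.2 := by
  simp [mon]

lemma deg_eq (α : Fin 3 →₀ ℕ) : Finsupp.degree α = α 0 + α 1 + α 2 := by
  rw [Finsupp.degree_eq_sum, Fin.sum_univ_three]

lemma ext3 {α β : Fin 3 →₀ ℕ} (h0 : α 0 = β 0) (h1 : α 1 = β 1) (h2 : α 2 = β 2) : α = β := by
  ext i
  fin_cases i
  · exact h0
  · exact h1
  · exact h2

/-- the index set -/
def P (n : ℕ) : Finset (ℕ × ℕ) := (Finset.range (n + 1)).biUnion Finset.HasAntidiagonal.antidiagonal

lemma mem_P {n : ℕ} {p : ℕ × ℕ} : p ∈ P n ↔ p.1 + p.2 ≤ n := by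
  unfold P
  rw [Finset.mem_biUnion]
  constructor
  · rintro ⟨s, hs, hp⟩
    rw [Finset.HasAntidiagonal.mem_antidiagonal] at hp
    rw [Finset.mem_range] at hs
    omega
  · intro hp
    exact ⟨p.1 + p.2, Finset.mem_range.2 (by omega), Finset.HasAntidiagonal.mem_antidiagonal.2 rfl⟩

lemma card_P (n : ℕ) : 2 * (P n).card = (n + 1) * (n + 2) := by
  unfold P
  rw [Finset.card_biUnion]
  · simp only [Finset.Nat.card_antidiagonal]
    induction n with
    | zero => simp
    | succ n ih =>
      rw [Finset.sum_range_succ, mul_add, ih]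
      ring
  · intro s _ t _ hst
    show Disjoint (Finset.HasAntidiagonal.antidiagonal s) (Finset.HasAntidiagonal.antidiagonal t)
    rw [Finset.disjoint_left]
    intro p hp hq
    rw [Finset.HasAntidiagonal.mem_antidiagonal] at hp hq
    exact hst (hp.symm.trans hq)

lemma deg_mon {n : ℕ} {p : ℕ × ℕ} (hp : p ∈ P n) : Finsupp.degree (mon n p) = n := by
  rw [mem_P] at hp
  rw [deg_eq, mon_0, mon_1, mon_2]
  omega

lemma mon_of_deg {n : ℕ} {α : Fin 3 →₀ ℕ} (h : Finsupp.degree α = n) : mon n (α 1, α 2) = α := by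
  rw [deg_eq] at h
  apply ext3
  · rw [mon_0]
    show n - α 1 - α 2 = α 0
    omega
  · rw [mon_1]
  · rw [mon_2]

lemma mon_inj {n : ℕ} {p p' : ℕ × ℕ} (h : mon n p = mon n p') : p = p' := by
  have h1 := DFunLike.congr_fun h 1
  have h2 := DFunLike.congr_fun h 2
  rw [mon_1, mon_1] at h1
  rw [mon_2, mon_2] at h2
  exact Prod.ext h1 h2

/-- the coefficients of the known exponents are `0` or `1` -/
lemma mem_field {n : ℕ} {G : R3} (hG : G.IsHomogeneous n) (X : Finset (ℕ × ℕ))
    (hX : ∀ p ∈ X, coeff (mon n p) G = 0 ∨ coeff (mon n p) G = 1)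
    (K : IntermediateField ℚ ℂ) (hK : ∀ p ∈ P n \ X, coeff (mon n p) G ∈ K)
    (α : Fin 3 →₀ ℕ) : coeff α G ∈ K := by
  by_cases hα : Finsupp.degree α = n
  · have hp : (α 1, α 2) ∈ P n := by
      rw [mem_P]
      rw [deg_eq] at hα
      show α 1 + α 2 ≤ n
      omega
    rw [← mon_of_deg hα]
    by_cases hpX : (α 1, α 2) ∈ X
    · rcases hX _ hpX with h | h
      · rw [h]; exact zero_mem K
      · rw [h]; exact one_mem K
    · exact hK _ (Finset.mem_sdiff.2 ⟨hp, hpX⟩)
  · rw [hG.coeff_eq_zero hα]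
    exact zero_mem K

lemma card3 {n : ℕ} (hn : 1 ≤ n) :
    (P n \ {((0 : ℕ), (0 : ℕ)), (1, 0), (0, 1)}).card + 3 = (P n).card := by
  have h1 : ({((0 : ℕ), (0 : ℕ)), (1, 0), (0, 1)} : Finset (ℕ × ℕ)) ⊆ P n := by
    intro p hp
    simp only [Finset.mem_insert, Finset.mem_singleton] at hp
    rw [mem_P]
    rcases hp with rfl | rfl | rfl
    · simp
    · simpa using hn
    · simpa using hn
  have h2 := Finset.card_sdiff_add_card_eq_card h1
  have h3 : ({((0 : ℕ), (0 : ℕ)), (1, 0), (0, 1)} : Finset (ℕ × ℕ)).card = 3 := by decide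
  rw [h3] at h2
  exact h2

lemma core (h : S_TR) {a b : ℕ} (ha : 1 ≤ a) (hb : 1 ≤ b) (hd : 3 ≤ a + b) {G H : R3}
    (hB : GenNode (a + b) (G * H)) (hG : G.IsHomogeneous a) (hH : H.IsHomogeneous b)
    (X Y : Finset (ℕ × ℕ)) (hX : X ⊆ P a) (hY : Y ⊆ P b)
    (hX1 : ∀ p ∈ X, coeff (mon a p) G = 0 ∨ coeff (mon a p) G = 1)
    (hY1 : ∀ p ∈ Y, coeff (mon b p) H = 0 ∨ coeff (mon b p) H = 1)
    (hc : X.card + Y.card = 3) : False := by
  classical
  let y : {p // p ∈ P a \ X} ⊕ {p // p ∈ P b \ Y} → ℂ :=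
    Sum.elim (fun p => coeff (mon a p.1) G) (fun p => coeff (mon b p.1) H)
  have hGK : ∀ α, coeff α G ∈ IntermediateField.adjoin ℚ (Set.range y) := by
    refine mem_field hG X hX1 _ fun p hp => IntermediateField.subset_adjoin _ _ ?_
    exact ⟨Sum.inl ⟨p, hp⟩, rfl⟩
  have hHK : ∀ α, coeff α H ∈ IntermediateField.adjoin ℚ (Set.range y) := by
    refine mem_field hH Y hY1 _ fun p hp => IntermediateField.subset_adjoin _ _ ?_
    exact ⟨Sum.inr ⟨p, hp⟩, rfl⟩
  have hBK : ∀ α, coeff α (G * H) ∈ IntermediateField.adjoin ℚ (Set.range y) := by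
    intro α
    rw [coeff_mul]
    exact sum_mem fun x _ => mul_mem (hGK _) (hHK _)
  set Z : Finset (ℕ × ℕ) := P (a + b) \ {((0 : ℕ), (0 : ℕ)), (1, 0), (0, 1)} with hZ
  have hZ1 : ∀ p ∈ Z, p ∈ P (a + b) ∧ mon (a + b) p 0 + 2 ≤ a + b := by
    intro p hp
    rw [hZ, Finset.mem_sdiff] at hp
    refine ⟨hp.1, ?_⟩
    have h1 := hp.1
    rw [mem_P] at h1
    have h2 : 2 ≤ p.1 + p.2 := by
      by_contra hcon
      apply hp.2
      simp only [Finset.mem_insert, Finset.mem_singleton]
      rcases p with ⟨i, j⟩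
      simp only [not_le] at hcon
      simp only [Prod.mk.injEq]
      omega
    rw [mon_0]
    omega
  have hx : AlgebraicIndependent ℚ (fun p : {p // p ∈ Z} => coeff (mon (a + b) p.1) (G * H)) := by
    have h1 := hB.ind.comp
      (fun p : {p // p ∈ Z} => (⟨mon (a + b) p.1, deg_mon (hZ1 _ p.2).1, (hZ1 _ p.2).2⟩ :
        {α : Fin 3 →₀ ℕ // Finsupp.degree α = a + b ∧ α 0 + 2 ≤ a + b})) (by
        intro p p' hpp
        exact Subtype.ext (mon_inj (congrArg Subtype.val hpp)))
    exact h1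
  have h1 := (h _ _ _ y hx (fun i => by
    exact isAlgebraic_algebraMap
      (⟨_, hBK (mon (a + b) i.1)⟩ : IntermediateField.adjoin ℚ (Set.range y)))).1
  rw [Fintype.card_sum, Fintype.card_coe, Fintype.card_coe, Fintype.card_coe] at h1
  have h2 := card3 (n := a + b) (by omega)
  rw [← hZ] at h2
  have h3 := Finset.card_sdiff_add_card_eq_card hX
  have h4 := Finset.card_sdiff_add_card_eq_card hY
  have h5 := card_P (a + b)
  have h6 := card_P a
  have h7 := card_P b
  have h8 : (P (a + b)).card ≤ (P a).card + (P b).card := by omega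
  have h9 : (a + b + 1) * (a + b + 2) ≤ (a + 1) * (a + 2) + (b + 1) * (b + 2) := by
    rw [← h5, ← h6, ← h7]
    omega
  have h10 : a * b ≤ 1 := by nlinarith
  have h11 : 2 ≤ a * b := by
    rcases Nat.lt_or_ge 1 a with h | h
    · nlinarith
    · have : a = 1 := by omega
      subst this
      omega
  omega

lemma coeff_top {a b : ℕ} {G H : R3} (hG : G.IsHomogeneous a) (hH : H.IsHomogeneous b) :
    coeff (mon (a + b) (0, 0)) (G * H) = coeff (mon a (0, 0)) G * coeff (mon b (0, 0)) H := by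
  classical
  rw [coeff_mul]
  apply Finset.sum_eq_single_of_mem (mon a (0, 0), mon b (0, 0))
  · rw [Finset.HasAntidiagonal.mem_antidiagonal]
    apply ext3
    · rw [Finsupp.add_apply, mon_0, mon_0, mon_0]; simp
    · rw [Finsupp.add_apply, mon_1, mon_1, mon_1]; simp
    · rw [Finsupp.add_apply, mon_2, mon_2, mon_2]; simp
  · rintro ⟨x, y⟩ hxy hne
    rw [Finset.HasAntidiagonal.mem_antidiagonal] at hxy
    by_cases hx : Finsupp.degree x = a
    · by_cases hy : Finsupp.degree y = b
      · exfalso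
        apply hne
        have h1 := DFunLike.congr_fun hxy 1
        have h2 := DFunLike.congr_fun hxy 2
        rw [Finsupp.add_apply, mon_1] at h1
        rw [Finsupp.add_apply, mon_2] at h2
        simp only at h1 h2
        rw [deg_eq] at hx hy
        refine Prod.ext (ext3 ?_ ?_ ?_) (ext3 ?_ ?_ ?_)
        · rw [mon_0]; simp only; omega
        · rw [mon_1]; simp only; omega
        · rw [mon_2]; simp only; omega
        · rw [mon_0]; simp only; omega
        · rw [mon_1]; simp only; omega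
        · rw [mon_2]; simp only; omega
      · show coeff x G * coeff y H = 0
        rw [hH.coeff_eq_zero hy, mul_zero]
    · show coeff x G * coeff y H = 0
      rw [hG.coeff_eq_zero hx, zero_mul]

lemma coeff_next {a b : ℕ} (hb : 1 ≤ b) {G H : R3} (hG : G.IsHomogeneous a)
    (hH : H.IsHomogeneous b) (h0 : coeff (mon b (0, 0)) H = 0) (p : ℕ × ℕ) (hp : p.1 + p.2 = 1) :
    coeff (mon (a + b) p) (G * H) = coeff (mon a (0, 0)) G * coeff (mon b p) H := by
  classical
  rw [coeff_mul]
  apply Finset.sum_eq_single_of_mem (mon a (0, 0), mon b p)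
  · rw [Finset.HasAntidiagonal.mem_antidiagonal]
    apply ext3
    · rw [Finsupp.add_apply, mon_0, mon_0, mon_0]; simp only; omega
    · rw [Finsupp.add_apply, mon_1, mon_1, mon_1]; simp only; omega
    · rw [Finsupp.add_apply, mon_2, mon_2, mon_2]; simp only; omega
  · rintro ⟨x, y⟩ hxy hne
    rw [Finset.HasAntidiagonal.mem_antidiagonal] at hxy
    show coeff x G * coeff y H = 0
    by_cases hx : Finsupp.degree x = a
    · by_cases hy : Finsupp.degree y = b
      · have h1 := DFunLike.congr_fun hxy 1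
        have h2 := DFunLike.congr_fun hxy 2
        rw [Finsupp.add_apply, mon_1] at h1
        rw [Finsupp.add_apply, mon_2] at h2
        simp only at h1 h2
        rw [deg_eq] at hx hy
        by_cases hy0 : y 1 + y 2 = 0
        · have hyy : y = mon b (0, 0) := by
            refine ext3 ?_ ?_ ?_
            · rw [mon_0]; simp only; omega
            · rw [mon_1]; simp only; omega
            · rw [mon_2]; simp only; omega
          rw [hyy, h0, mul_zero]
        · exfalso
          apply hne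
          refine Prod.ext (ext3 ?_ ?_ ?_) (ext3 ?_ ?_ ?_)
          · rw [mon_0]; simp only; omega
          · rw [mon_1]; simp only; omega
          · rw [mon_2]; simp only; omega
          · rw [mon_0]; simp only; omega
          · rw [mon_1]; simp only; omega
          · rw [mon_2]; simp only; omega
      · rw [hH.coeff_eq_zero hy, mul_zero]
    · rw [hG.coeff_eq_zero hx, zero_mul]

/-- one factor does not vanish at the point -/
lemma case1 (h : S_TR) {a b : ℕ} (ha : 1 ≤ a) (hb : 1 ≤ b) (hd : 3 ≤ a + b) {G H : R3}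
    (hB : GenNode (a + b) (G * H)) (hG : G.IsHomogeneous a) (hH : H.IsHomogeneous b)
    (hg : coeff (mon a (0, 0)) G ≠ 0) : False := by
  have h00 : coeff (mon b (0, 0)) H = 0 := by
    have h1 := hB.zero (mon (a + b) (0, 0)) (by rw [mon_0]; simp only; omega)
    rw [coeff_top hG hH] at h1
    exact (mul_eq_zero.1 h1).resolve_left hg
  have h1 : ∀ p : ℕ × ℕ, p.1 + p.2 = 1 → coeff (mon b p) H = 0 := by
    intro p hp
    have h1 := hB.zero (mon (a + b) p) (by rw [mon_0]; omega)
    rw [coeff_next hb hG hH h00 p hp] at h1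
    exact (mul_eq_zero.1 h1).resolve_left hg
  refine core h ha hb hd hB hG hH ∅ {((0 : ℕ), (0 : ℕ)), (1, 0), (0, 1)}
    (Finset.empty_subset _) ?_ (fun p hp => absurd hp (Finset.notMem_empty p)) ?_ (by decide)
  · intro p hp
    simp only [Finset.mem_insert, Finset.mem_singleton] at hp
    rw [mem_P]
    rcases hp with rfl | rfl | rfl
    · simp
    · simpa using hb
    · simpa using hb
  · intro p hp
    left
    simp only [Finset.mem_insert, Finset.mem_singleton] at hp
    rcases hp with rfl | rfl | rfl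
    · exact h00
    · exact h1 _ rfl
    · exact h1 _ rfl

/-- both factors vanish at the point -/
lemma case2 (h : S_TR) {a b : ℕ} (ha : 1 ≤ a) (hb : 1 ≤ b) (hd : 3 ≤ a + b) {G H : R3}
    (hB : GenNode (a + b) (G * H)) (hG : G.IsHomogeneous a) (hH : H.IsHomogeneous b)
    (hG0 : G ≠ 0) (hg : coeff (mon a (0, 0)) G = 0) (hh : coeff (mon b (0, 0)) H = 0) :
    False := by
  classical
  obtain ⟨α, hα⟩ := MvPolynomial.exists_coeff_ne_zero hG0
  have hdeg : Finsupp.degree α = a := by
    by_contra hne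
    exact hα (hG.coeff_eq_zero hne)
  have hp : (α 1, α 2) ∈ P a := by
    rw [mem_P]
    rw [deg_eq] at hdeg
    show α 1 + α 2 ≤ a
    omega
  have hα2 : coeff (mon a (α 1, α 2)) G ≠ 0 := by
    rw [mon_of_deg hdeg]
    exact hα
  generalize (α 1, α 2) = p at hp hα2
  set c := coeff (mon a p) G with hc
  have hne : p ≠ (0, 0) := by
    rintro rfl
    exact hα2 hg
  have hGH : C c⁻¹ * G * (C c * H) = G * H := by
    have : (C c⁻¹ * C c : R3) = 1 := by
      rw [← C_mul, inv_mul_cancel₀ hα2, C_1]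
    calc C c⁻¹ * G * (C c * H) = (C c⁻¹ * C c) * (G * H) := by ring
      _ = G * H := by rw [this, one_mul]
  have hG' : (C c⁻¹ * G : R3).IsHomogeneous a := by
    have := (isHomogeneous_C (Fin 3) (c⁻¹ : ℂ)).mul hG
    rwa [zero_add] at this
  have hH' : (C c * H : R3).IsHomogeneous b := by
    have := (isHomogeneous_C (Fin 3) (c : ℂ)).mul hH
    rwa [zero_add] at this
  refine core h ha hb hd (G := C c⁻¹ * G) (H := C c * H) (by rw [hGH]; exact hB) hG' hH'
    {(0, 0), p} {(0, 0)} ?_ ?_ ?_ ?_ ?_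
  · intro p' hp'
    simp only [Finset.mem_insert, Finset.mem_singleton] at hp'
    rcases hp' with rfl | rfl
    · rw [mem_P]; simp
    · exact hp
  · intro p' hp'
    rw [Finset.mem_singleton] at hp'
    rw [hp', mem_P]; simp
  · intro p' hp'
    simp only [Finset.mem_insert, Finset.mem_singleton] at hp'
    rcases hp' with rfl | rfl
    · left
      rw [coeff_C_mul, hg, mul_zero]
    · right
      rw [coeff_C_mul, ← hc, inv_mul_cancel₀ hα2]
  · intro p' hp'
    rw [Finset.mem_singleton] at hp'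
    left
    rw [hp', coeff_C_mul, hh, mul_zero]
  · rw [Finset.card_pair hne.symm, Finset.card_singleton]

lemma unit_of_hom_zero {G : R3} (hG : G.IsHomogeneous 0) (hG0 : G ≠ 0) : IsUnit G := by
  have h1 := hG.totalDegree hG0
  rw [totalDegree_eq_zero_iff_eq_C] at h1
  rw [h1]
  have h2 : coeff 0 G ≠ 0 := by
    intro h2
    apply hG0
    rw [h1, h2, C_0]
  exact (isUnit_iff_ne_zero.2 h2).map C

theorem t_IRR (h : S_TR) : S_IRR := by
  intro d B hd hB
  have hB0 : B ≠ 0 := by
    rintro rfl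
    have h1 := hB.ind.ne_zero (⟨mon d (2, 0), deg_mon (by rw [mem_P]; simp only; omega), by
      rw [mon_0]; simp only; omega⟩ :
        {α : Fin 3 →₀ ℕ // Finsupp.degree α = d ∧ α 0 + 2 ≤ d})
    exact h1 (coeff_zero _)
  refine irreducible_iff.2 ⟨?_, ?_⟩
  · intro hu
    obtain ⟨u, hu⟩ := hu.exists_right_inv
    have h1 : (B * u : R3).IsHomogeneous 0 := by
      rw [hu]
      exact isHomogeneous_one _ _
    obtain ⟨a, b, ha, hb, hab⟩ := Helper413.Quad.isHomogeneous_of_mul
      (by rw [hu]; exact one_ne_zero) h1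
    have h2 := hB.hom.inj_right ha hB0
    omega
  · intro G H hGH
    by_contra hcon
    push Not at hcon
    obtain ⟨hGu, hHu⟩ := hcon
    subst hGH
    obtain ⟨a, b, hG, hH, rfl⟩ := Helper413.Quad.isHomogeneous_of_mul hB0 hB.hom
    have hG0 : G ≠ 0 := left_ne_zero_of_mul hB0
    have hH0 : H ≠ 0 := right_ne_zero_of_mul hB0
    have ha : 1 ≤ a := by
      rcases Nat.eq_zero_or_pos a with rfl | ha
      · exact absurd (unit_of_hom_zero hG hG0) hGu
      · exact ha
    have hb : 1 ≤ b := by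
      rcases Nat.eq_zero_or_pos b with rfl | hb
      · exact absurd (unit_of_hom_zero hH hH0) hHu
      · exact hb
    by_cases hg : coeff (mon a (0, 0)) G = 0
    · by_cases hh : coeff (mon b (0, 0)) H = 0
      · exact case2 h ha hb hd hB hG hH hG0 hg hh
      · refine case1 h hb ha (by omega) (G := H) (H := G) ?_ hH hG hh
        rw [mul_comm H G, add_comm b a]
        exact hB
    · exact case1 h ha hb hd hB hG hH hg

end Pool.Agent.TH251.VS
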